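import Pool.Agent.J4H85.CD.Stm4

/-! Project CD, part 4, piece LOW4: the answer is sensitive to a planted common element. -/

set_option autoImplicit false

namespace Pool.Agent.J4H36.CD

open Finset DomAC0 H568R2 Pool.Agent.J4H85.CD

/-- one pair of sets, one element -/
theorem point {Ω : Type} [Fintype Ω] (p : Ω → ℝ) (hp : ∀ ω, 0 ≤ p ω) (h1 : ∑ ω, p ω = 1)
    (a b : Ω → Bool) (δ U : ℝ) (hδ : δ ≤ 1 / 2) (τ : Prop) [Decidable τ] (hU0 : 0 ≤ U)
    (hU1 : τ → 1 ≤ U)
    (ha : ¬ τ → 1 / 2 + δ ≤ ∑ ω, if a ω = true then p ω else 0)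
    (hb : ¬ τ → 1 / 2 + δ ≤ ∑ ω, if ¬ b ω = true then p ω else 0) :
    2 * δ - U ≤ ∑ ω, if a ω ≠ b ω then p ω else 0 := by
  by_cases hτ : τ
  · have h3 : 0 ≤ ∑ ω, (if a ω ≠ b ω then p ω else 0) := by
      refine Finset.sum_nonneg fun ω _ => ?_
      split_ifs
      · exact hp ω
      · exact le_rfl
    have := hU1 hτ
    linarith
  · have h2 := hb hτ
    have h4 := ha hτ
    have h3 : ∑ ω, (if a ω = true then p ω else 0) + ∑ ω, (if ¬ b ω = true then p ω else 0) ≤
        ∑ ω, p ω + ∑ ω, (if a ω ≠ b ω then p ω else 0) := by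
      rw [← Finset.sum_add_distrib, ← Finset.sum_add_distrib]
      refine Finset.sum_le_sum fun ω _ => ?_
      have := hp ω
      cases a ω <;> cases b ω <;> simp <;> linarith
    rw [h1] at h3
    linarith

section Pl

variable {k u : ℕ} (i j : Fin k) (e : Fin u) (X : Slot k u → Bool)

theorem pl2_mono (l : Slot k u) (h : X l = true) : pl2 i j e X l = true := by
  unfold pl2
  by_cases h1 : l = (true, j, e)
  · rw [h1, Function.update_self]
  · rw [Function.update_of_ne h1]
    by_cases h2 : l = (false, i, e)
    · rw [h2, Function.update_self]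
    · rw [Function.update_of_ne h2, h]

theorem pl2_off (l : Slot k u) (h1 : l ≠ (true, j, e)) (h2 : l ≠ (false, i, e)) :
    pl2 i j e X l = X l := by
  unfold pl2
  rw [Function.update_of_ne h1, Function.update_of_ne h2]

theorem pl2_f : pl2 i j e X (false, i, e) = true := by
  unfold pl2
  rw [Function.update_of_ne (by simp), Function.update_self]

theorem pl2_t : pl2 i j e X (true, j, e) = true := by
  unfold pl2
  rw [Function.update_self]

theorem card_pl2 : (univ.filter (fun l : Slot k u => pl2 i j e X l = true)).card ≤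
    (univ.filter (fun l : Slot k u => X l = true)).card + 2 := by
  classical
  have h : univ.filter (fun l : Slot k u => pl2 i j e X l = true) ⊆
      insert (true, j, e) (insert (false, i, e) (univ.filter (fun l : Slot k u => X l = true))) := by
    intro l hl
    by_cases h1 : l = (true, j, e)
    · exact h1 ▸ mem_insert_self _ _
    by_cases h2 : l = (false, i, e)
    · exact mem_insert_of_mem (h2 ▸ mem_insert_self _ _)
    refine mem_insert_of_mem (mem_insert_of_mem ?_)
    rw [mem_filter] at hl ⊢
    rw [pl2_off i j e X l h1 h2] at hl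
    exact hl
  refine (card_le_card h).trans ?_
  refine (card_insert_le _ _).trans ?_
  have := card_insert_le (false, i, e) (univ.filter (fun l : Slot k u => X l = true))
  omega

end Pl

theorem t_LOW4 : S_LOW4 := by
  classical
  intro k u N Ω _ p R y δ hy0 hy1 hN hp h1 hR
  set w : Bool → ℝ := vp (y / 2) with hw
  have hw0 : ∀ a, 0 ≤ w a := fun a => vp_nonneg (by linarith) (by linarith) a
  have hw1 : ∑ a, w a = 1 := vp_sum _
  have hN0 : (0 : ℝ) < N := by
    have : 0 < N := by omega
    exact_mod_cast this
  have hs : ∑ a ∈ univ.filter (fun a : Bool => a = true), w a = y / 2 := by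
    have : (univ.filter (fun a : Bool => a = true)) = {true} := by
      ext a; simp
    rw [this, Finset.sum_singleton]
    rfl
  let g : Fin k → Fin k → Fin u → (Slot k u → Bool) → ℝ := fun i j e X =>
    if ∀ l ∈ ({(false, i, e), (true, j, e)} : Finset (Slot k u)), X l = true then 1 else 0
  have hg : ∀ i j e, Ex w (g i j e) = (y / 2) ^ 2 := by
    intro i j e
    have h := Ex_indep (I := Slot k u) hw1 (fun a : Bool => a = true)
      ({(false, i, e), (true, j, e)} : Finset (Slot k u)) (fun _ => (1 : ℝ)) (fun _ _ _ _ => rfl)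
    rw [Ex_const hw1] at h
    have hc : ({(false, i, e), (true, j, e)} : Finset (Slot k u)).card = 2 := by
      rw [Finset.card_pair]
      simp
    rw [hc, hs, mul_one] at h
    rw [← h]
    congr 1
    funext X
    simp only [g, one_mul]
  have hgn : ∀ i j e' X, 0 ≤ g i j e' X := by
    intro i j e' X
    simp only [g]
    split_ifs <;> norm_num
  -- single slots
  let v : Slot k u → (Slot k u → Bool) → ℝ := fun l X => if X l = true then 1 else 0
  have hv : ∀ l, Ex w (v l) = y / 2 := by
    intro l
    have h := Ex_indep (I := Slot k u) hw1 (fun a : Bool => a = true)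
      ({l} : Finset (Slot k u)) (fun _ => (1 : ℝ)) (fun _ _ _ _ => rfl)
    rw [Ex_const hw1] at h
    rw [Finset.card_singleton, hs, mul_one, pow_one] at h
    rw [← h]
    congr 1
    funext X
    simp only [v, one_mul, mem_singleton, forall_eq]
  have hvn : ∀ l X, 0 ≤ v l X := by
    intro l X
    simp only [v]
    split_ifs <;> norm_num
  have hvc : ∀ X : Slot k u → Bool, ((univ.filter (fun l : Slot k u => X l = true)).card : ℝ) =
      ∑ l, v l X := by
    intro X
    rw [Finset.card_filter]
    push_cast
    rfl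
  -- the upper function
  let U : Fin k → Fin k → (Slot k u → Bool) → ℝ := fun i j X =>
    ∑ e', g i j e' X + 2 / N * ∑ l, v l X
  have hU0 : ∀ i j X, 0 ≤ U i j X := by
    intro i j X
    have a2 : 0 ≤ ∑ l, v l X := Finset.sum_nonneg fun l _ => hvn l X
    have a3 : 0 ≤ ∑ e', g i j e' X := Finset.sum_nonneg fun e' _ => hgn i j e' X
    have a4 : 0 ≤ 2 / (N : ℝ) * ∑ l, v l X := mul_nonneg (by positivity) a2
    simp only [U]
    linarith
  have hUe : ∀ i j, Ex w (U i j) = u * (y / 2) ^ 2 + 2 * (k * u * y) / N := by
    intro i j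
    have e1 : Ex w (U i j) = ∑ e', Ex w (g i j e') + 2 / N * ∑ l : Slot k u, Ex w (v l) := by
      simp only [U]
      rw [Ex_add, Ex_smul, Ex_sum, Ex_sum]
    rw [e1, Finset.sum_congr rfl fun l _ => hv l, Finset.sum_congr rfl fun e' _ => hg i j e']
    simp only [sum_const, card_univ, Fintype.card_fin, Fintype.card_prod, Fintype.card_bool,
      nsmul_eq_mul]
    push_cast
    field_simp
    try ring
  -- the pointwise bound
  have hpt : ∀ X : Slot k u → Bool,
      ∑ i : Fin k, ∑ j : Fin k, ∑ _e : Fin u, (2 * δ + (-1) * U i j X) ≤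
        ∑ ω, p ω * ∑ i : Fin k, ∑ j : Fin k,
          ((univ.filter (fun e : Fin u => R ω (pl2 i j e X) i j ≠ R ω X i j)).card : ℝ) := by
    intro X
    have e1 : ∑ ω, p ω * ∑ i : Fin k, ∑ j : Fin k,
          ((univ.filter (fun e : Fin u => R ω (pl2 i j e X) i j ≠ R ω X i j)).card : ℝ) =
        ∑ i : Fin k, ∑ j : Fin k, ∑ e : Fin u,
          ∑ ω, if R ω (pl2 i j e X) i j ≠ R ω X i j then p ω else 0 := by
      simp only [Finset.mul_sum]
      rw [Finset.sum_comm]
      refine Finset.sum_congr rfl fun i _ => ?_
      rw [Finset.sum_comm]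
      refine Finset.sum_congr rfl fun j _ => ?_
      rw [Finset.sum_comm (s := (univ : Finset (Fin u)))]
      refine Finset.sum_congr rfl fun ω _ => ?_
      rw [Finset.card_filter]
      push_cast
      rw [Finset.mul_sum]
      refine Finset.sum_congr rfl fun e _ => ?_
      split_ifs <;> simp
    rw [e1]
    refine Finset.sum_le_sum fun i _ => Finset.sum_le_sum fun j _ => Finset.sum_le_sum fun e _ => ?_
    -- `δ ≤ 1 / 2`
    have hδ : δ ≤ 1 / 2 := by
      have h := hR (fun _ => false) i j (by simp)
      have h2 : ∀ (a : Ω → Prop) [DecidablePred a], ∑ ω, (if a ω then p ω else 0) ≤ 1 := by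
        intro a _
        rw [← h1]
        refine Finset.sum_le_sum fun ω _ => ?_
        split_ifs
        · exact le_rfl
        · exact hp ω
      have h3 := h.trans (h2 _)
      linarith
    have e2 : 2 * δ + (-1) * U i j X = 2 * δ - U i j X := by ring
    rw [e2]
    refine point p hp h1 (fun ω => R ω (pl2 i j e X) i j) (fun ω => R ω X i j) δ
      (U i j X) hδ
      ((∃ e', X (false, i, e') = true ∧ X (true, j, e') = true) ∨
        N < (univ.filter (fun l : Slot k u => pl2 i j e X l = true)).card) (hU0 i j X) ?_ ?_ ?_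
    · have a2 : 0 ≤ ∑ l, v l X := Finset.sum_nonneg fun l _ => hvn l X
      have a3 : 0 ≤ ∑ e', g i j e' X := Finset.sum_nonneg fun e' _ => hgn i j e' X
      have a4 : 0 ≤ 2 / (N : ℝ) * ∑ l, v l X := mul_nonneg (by positivity) a2
      rintro (⟨e', h⟩ | h)
      · have b1 : g i j e' X = 1 := by
          simp only [g]
          rw [if_pos]
          intro l hl
          simp only [mem_insert, mem_singleton] at hl
          rcases hl with rfl | rfl
          · exact h.1
          · exact h.2
        have b2 : g i j e' X ≤ ∑ e'' : Fin u, g i j e'' X :=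
          Finset.single_le_sum (f := fun e'' => g i j e'' X) (fun e'' _ => hgn i j e'' X)
            (mem_univ e')
        simp only [U]
        linarith
      · have h2 := card_pl2 i j e X
        have h3 : N ≤ 2 * (univ.filter (fun l : Slot k u => X l = true)).card := by omega
        have h4 : (N : ℝ) ≤ 2 * ∑ l, v l X := by
          rw [← hvc]
          exact_mod_cast h3
        have h5 : 1 ≤ 2 / (N : ℝ) * ∑ l, v l X := by
          rw [div_mul_eq_mul_div, le_div_iff₀ hN0]
          linarith
        simp only [U]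
        linarith
    · intro hn
      rw [not_or] at hn
      have h := hR (pl2 i j e X) i j (not_lt.1 hn.2)
      have ht : ∃ e', pl2 i j e X (false, i, e') = true ∧ pl2 i j e X (true, j, e') = true :=
        ⟨e, pl2_f i j e X, pl2_t i j e X⟩
      simp only [ht, iff_true] at h
      exact h
    · intro hn
      rw [not_or] at hn
      obtain ⟨hn1, hn2⟩ := hn
      have h := hR X i j (le_trans (card_le_card fun l hl => by
          rw [mem_filter] at hl ⊢
          exact ⟨hl.1, pl2_mono i j e X l hl.2⟩) (not_lt.1 hn2))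
      simp only [hn1, iff_false] at h
      exact h
  have hmain := Ex_mono (w := w) hw0 hpt
  have hL : Ex w (fun X => ∑ i : Fin k, ∑ j : Fin k, ∑ _e : Fin u,
      (2 * δ + (-1) * U i j X)) =
      (2 * δ - u * (y / 2) ^ 2 - 2 * (k * u * y) / N) * ((k : ℝ) ^ 2 * u) := by
    rw [Ex_sum]
    have : ∀ i : Fin k, Ex w (fun X => ∑ j : Fin k, ∑ _e : Fin u, (2 * δ + (-1) * U i j X)) =
        k * (u * (2 * δ - u * (y / 2) ^ 2 - 2 * (k * u * y) / N)) := by
      intro i
      rw [Ex_sum]
      have h5 : ∀ j : Fin k, Ex w (fun X => ∑ _e : Fin u, (2 * δ + (-1) * U i j X)) =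
          u * (2 * δ - u * (y / 2) ^ 2 - 2 * (k * u * y) / N) := by
        intro j
        rw [Ex_sum]
        have h6 : Ex w (fun X => 2 * δ + (-1) * U i j X) =
            2 * δ - u * (y / 2) ^ 2 - 2 * (k * u * y) / N := by
          rw [Ex_add, Ex_const hw1, Ex_smul]
          have := hUe i j
          rw [this]
          ring
        rw [Finset.sum_congr rfl fun e _ => h6]
        simp only [sum_const, card_univ, Fintype.card_fin, nsmul_eq_mul]
      rw [Finset.sum_congr rfl fun j _ => h5 j]
      simp only [sum_const, card_univ, Fintype.card_fin, nsmul_eq_mul]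
    rw [Finset.sum_congr rfl fun i _ => this i]
    simp only [sum_const, card_univ, Fintype.card_fin, nsmul_eq_mul]
    ring
  rw [hL] at hmain
  refine hmain.trans (le_of_eq ?_)
  rw [Ex_sum]
  refine Finset.sum_congr rfl fun ω _ => ?_
  rw [Ex_smul]

end Pool.Agent.J4H36.CD
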